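import Pool.Agent.H87.SLO.Tup
import Pool.Agent.H43.GN.Span

/-!
# LEMMA X for flags of any length: the minimisation

`Lat` is an abstract family of bodies: `lv` is the logarithm of the volume, `jn V U` the sum of two
bodies, `cl U x` the cell of the point `x` in the body `U`. The only hypothesis (`Lat.OK`): the cell
in the sum of two bodies is known up to a bounded error from the cell in each of them.

`L` is the line, `V` the own plank of the label `B`, `b` the context. `cx j` is the context together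
with `j` independent copies of the own plank, given the line and the context. `A j` is the class of
the bodies which are admitted when there are `j` copies (`Cla`); the sum of the own plank and a body
of `A j` is in `A (j + 1)`.
-/

set_option autoImplicit false

namespace Pool.LX35

open Finset Real
open Pool.Agent.H49.Ent Pool.Agent.H32.Dense Pool.STK Pool.SLO Pool.K2S Pool.SPN

/-- Bodies: the logarithm of the volume, the sum, the cells. -/
structure Lat (Bd Lam Gam : Type) where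
  lv : Bd → ℝ
  jn : Bd → Bd → Bd
  cl : Bd → Lam → Gam

/-- The basic assumptions. -/
structure Lat.OK {Bd Lam Gam : Type} (X : Lat Bd Lam Gam) (C : ℝ) : Prop where
  up : ∀ V U, X.lv U ≤ X.lv (X.jn V U) + C
  jn1 : ∀ {Ω S : Type} [Fintype Ω] (q : Ω → ℝ) (x : Ω → Lam) (V U : Ω → Bd) (Z : Ω → S),
    IsLaw q → Det q Z V → Det q Z U →
    CH q (fun ω => X.cl (X.jn (V ω) (U ω)) (x ω)) (fun ω => (X.cl (V ω) (x ω), Z ω)) ≤ C
  jn2 : ∀ {Ω S : Type} [Fintype Ω] (q : Ω → ℝ) (x : Ω → Lam) (V U : Ω → Bd) (Z : Ω → S),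
    IsLaw q → Det q Z V → Det q Z U →
    CH q (fun ω => X.cl (X.jn (V ω) (U ω)) (x ω)) (fun ω => (X.cl (U ω) (x ω), Z ω)) ≤ C

section sub

variable {Bd Lam Gam : Type} {X : Lat Bd Lam Gam} {C : ℝ} {Ω S : Type} [Fintype Ω]

/-- **Submodularity.** -/
theorem Lat.OK.sub (hX : X.OK C) {q : Ω → ℝ} (hq : IsLaw q) (x : Ω → Lam) (V U : Ω → Bd)
    (Z : Ω → S) (hV : Det q Z V) (hU : Det q Z U) :
    CH q (fun ω => X.cl (U ω) (x ω)) (fun ω => (X.cl (V ω) (x ω), Z ω)) +
      CH q (fun ω => X.cl (X.jn (V ω) (U ω)) (x ω)) Z ≤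
      CH q (fun ω => X.cl (U ω) (x ω)) Z + 2 * C := by
  have hq0 := hq.nonneg
  have h1 := hX.jn1 q x V U Z hq hV hU
  have h2 := hX.jn2 q x V U Z hq hV hU
  set u : Ω → Gam := fun ω => X.cl (U ω) (x ω) with hu
  set v : Ω → Gam := fun ω => X.cl (V ω) (x ω) with hv
  set s : Ω → Gam := fun ω => X.cl (X.jn (V ω) (U ω)) (x ω) with hs
  have h3 : CH q u (fun ω => (v ω, Z ω)) ≤ CH q s (fun ω => (v ω, Z ω)) +
      CH q u (fun ω => (s ω, (v ω, Z ω))) := CH_le_add hq0 u s _
  have h4 : CH q u (fun ω => (s ω, (v ω, Z ω))) ≤ CH q u (fun ω => (s ω, Z ω)) :=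
    CH_mono_cond hq0 fun ω ω' _ _ h => by
      simp only [Prod.mk.injEq] at h ⊢
      exact ⟨h.1, h.2.2⟩
  have h5 := CH_chain hq0 u s Z
  have h6 := CH_chain hq0 s u Z
  have h7 : CH q (fun ω => (u ω, s ω)) Z = CH q (fun ω => (s ω, u ω)) Z := by
    refine CH_congr hq0 ?_ ?_ (fun _ _ _ _ h => h) (fun _ _ _ _ h => h) <;>
      intro ω ω' _ _ h <;> simp only [Prod.mk.injEq] at h ⊢ <;> tauto
  linarith

end sub

/-- The classes of bodies. -/
structure Cla {Bd Lam Gam Ω : Type} (X : Lat Bd Lam Gam) (V : Ω → Bd) (W : Bd) (A : ℕ → Bd → Prop)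
    (D : ℝ) : Prop where
  lo : ∀ j U, A j U → -D ≤ X.lv U
  top : ∀ j, A j W
  own : ∀ j ω, A j (V ω)
  jn : ∀ j ω U, A j U → A (j + 1) (X.jn (V ω) U)

section copies

variable {Ω Lam Bd S : Type} [Fintype Ω] {p : Ω → ℝ}

/-- The context and `j` copies of the own plank. -/
def cx (b : Ω → S) (V : Ω → Bd) (j : ℕ) (v : Fin (j + 1) → Ω) : S × (Fin j → Bd) :=
  (b (v 0), fun i => V (v i.succ))

/-- The context and `j + 1` copies: the last copy in the place of the own plank. -/
def rot (j : ℕ) (i : Fin (j + 1)) : Fin (j + 2) :=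
  if i = 0 then Fin.last (j + 1) else i.castSucc

theorem rot_zero (j : ℕ) : rot j 0 = Fin.last (j + 1) := by
  unfold rot
  rw [if_pos rfl]

theorem rot_succ (j : ℕ) (i : Fin j) : rot j i.succ = i.castSucc.succ := by
  unfold rot
  rw [if_neg (Fin.succ_ne_zero i), Fin.succ_castSucc]

theorem rot_inj (j : ℕ) : Function.Injective (rot j) := by
  intro a c h
  have key : ∀ a : Fin (j + 1), ((rot j a : Fin (j + 2)) : ℕ) = if (a : ℕ) = 0 then j + 1 else a := by
    intro a
    unfold rot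
    by_cases ha : a = 0
    · rw [if_pos ha, if_pos (by rw [ha]; rfl)]
      rfl
    · have ha' : ¬ ((a : ℕ) = 0) := fun h0 => ha (Fin.ext h0)
      rw [if_neg ha, if_neg ha']
      rfl
  have h1 := key a
  have h2 := key c
  rw [h] at h1
  rw [h1] at h2
  have ha := a.isLt
  have hc := c.isLt
  apply Fin.ext
  by_cases h3 : (a : ℕ) = 0
  · by_cases h4 : (c : ℕ) = 0
    · omega
    · rw [if_pos h3, if_neg h4] at h2
      omega
  · by_cases h4 : (c : ℕ) = 0
    · rw [if_neg h3, if_pos h4] at h2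
      omega
    · rw [if_neg h3, if_neg h4] at h2
      omega

theorem rot_marg (hp : ∀ ω, 0 ≤ p ω) (K : Ω → S) (j : ℕ) :
    Marg (tup p K (j + 1)) (tup p K j) (fun v => v ∘ rot j) := tup_sub hp K (rot j) (rot_inj j)

/-- The own plank depends on the copies through the line. -/
theorem mi_cx (hp : IsLaw p) (b : Ω → S) (L : Ω → Lam) (V : Ω → Bd) (j : ℕ) :
    CH p V (fun ω => (b ω, L ω)) ≤
      CH (tup p (fun ω => (b ω, L ω)) j) (fun v => V (v 0)) (cx b V j) := by
  classical
  have hp0 := hp.nonneg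
  set K : Ω → S × Lam := fun ω => (b ω, L ω) with hK
  rcases Nat.eq_zero_or_pos j with rfl | hj
  · have h1 := (tup_marg hp0 K 0 0).CH V K
    have h2 : CH (tup p K 0) (fun v => V (v 0)) (fun v => K (v 0)) ≤
        CH (tup p K 0) (fun v => V (v 0)) (cx b V 0) := by
      refine CH_mono_cond (tup_nonneg hp0 K 0) ?_
      intro v v' _ _ h
      unfold cx
      refine Prod.ext (congrArg Prod.fst h : _) ?_
      funext i
      exact i.elim0
    linarith
  · obtain ⟨i, rfl⟩ : ∃ i, j = i + 1 := ⟨j - 1, by omega⟩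
    have hq0 := tup_nonneg hp0 K (i + 1)
    have h1 : CH (tup p K (i + 1)) (fun v => V (v 0)) (fun v => (K (v 0), fun a : Fin (i + 1) =>
        v a.succ)) ≤ CH (tup p K (i + 1)) (fun v => V (v 0)) (cx b V (i + 1)) := by
      refine CH_mono_cond hq0 ?_
      intro v v' _ _ h
      unfold cx
      simp only [Prod.mk.injEq] at h
      refine Prod.ext (congrArg Prod.fst h.1 : _) ?_
      funext a
      exact congrArg V (congrFun h.2 a)
    have h2 := (tup_perm hp0 K (N := i + 1) Fin.revPerm).CH (fun v => V (v (Fin.last (i + 1))))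
      (fun v => (K (v (Fin.last (i + 1))), Fin.init v))
    have h3 := (tup_snoc hp0 K i).CH (fun w => V w.2) (fun w => (K w.2, w.1))
    have h4 := CH_glue_snd (tup_nonneg hp0 K i) hp0
      (Z₁ := fun v : Fin (i + 1) → Ω => K (v 0)) (Z₂ := K) (tup_law hp0 K i) V
      (Y := K) (fun w => w) (fun _ _ _ _ h => h)
    have h5 : CH (tup p K (i + 1)) (fun v => V (v 0)) (fun v => (K (v 0), fun a : Fin (i + 1) =>
        v a.succ)) = CH (tup p K (i + 1)) (fun w => V ((w ∘ Fin.revPerm) (Fin.last (i + 1))))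
        (fun w => (K ((w ∘ Fin.revPerm) (Fin.last (i + 1))),
          (Fin.init (w ∘ Fin.revPerm) : Fin (i + 1) → Ω))) := by
      have e0 : Fin.revPerm (Fin.last (i + 1)) = 0 := by simp
      refine CH_congr hq0 ?_ ?_ ?_ ?_
      · intro v v' _ _ h
        simp only [Prod.mk.injEq, Function.comp] at h ⊢
        rw [e0]
        exact h.1
      · intro v v' _ _ h
        simp only [Prod.mk.injEq, Function.comp] at h ⊢
        rw [e0] at h
        exact h.1
      · intro v v' _ _ h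
        simp only [Prod.mk.injEq, Function.comp] at h ⊢
        rw [e0]
        refine ⟨h.1, ?_⟩
        funext a
        have ha := congrFun h.2 a.rev
        have e1 : (Fin.revPerm a.castSucc : Fin (i + 2)) = a.rev.succ := by
          simp [Fin.rev_castSucc]
        show v (Fin.revPerm a.castSucc) = v' (Fin.revPerm a.castSucc)
        rw [e1]
        exact ha
      · intro v v' _ _ h
        simp only [Prod.mk.injEq, Function.comp] at h ⊢
        rw [e0] at h
        refine ⟨h.1, ?_⟩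
        funext a
        have ha := congrFun h.2 a.rev
        have e1 : (Fin.revPerm a.rev.castSucc : Fin (i + 2)) = a.succ := by
          simp [Fin.rev_castSucc]
        have hb : v (Fin.revPerm a.rev.castSucc) = v' (Fin.revPerm a.rev.castSucc) := ha
        rw [e1] at hb
        exact hb
    rw [← h4, ← h3, ← h2, ← h5]
    exact h1

end copies

theorem Pe_Ex' {Ω : Type} [Fintype Ω] (q : Ω → ℝ) (E : Ω → Prop) [DecidablePred E] :
    Pe q E = Ex q (fun v => if E v then (1 : ℝ) else 0) := by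
  rw [Pe_Ex]
  unfold Ex
  refine Finset.sum_congr rfl fun v _ => ?_
  by_cases h : E v <;> simp [h]

section choice

variable {Ω S α β : Type} [Fintype Ω]

/-- **Choice of the copy.** If the sample `V` passes the test of `A` often and depends little on
`A` given `b`, then it passes the test of a function of `b`. -/
theorem pick {q : Ω → ℝ} (hq : IsLaw q) (V : Ω → β) (b : Ω → S) (A : Ω → α)
    (G : S → α → β → Prop) {η io : ℝ} (hη : 0 < η) (hio : 0 ≤ io)
    (hE : η ≤ Pe q (fun w => G (b w) (A w) (V w)))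
    (hmi : CH q V b - CH q V (fun w => (b w, A w)) ≤ io) :
    ∃ a : S → α, η / 2 * Real.exp (-(2 / η * (io + Real.log 2))) ≤
      Pe q (fun w => G (b w) (a (b w)) (V w)) := by
  classical
  have hq0 := hq.nonneg
  set E : Ω → Prop := fun w => G (b w) (A w) (V w) with hEdef
  set B : S × α → β → Prop := fun f v => G f.1 f.2 v with hB
  have hlog2 : 0 < Real.log 2 := Real.log_pos one_lt_two
  set δ : ℝ := io + Real.log 2 with hδ
  have hδ0 : 0 < δ := by linarith
  set F : Ω → Option (S × α) := fun w => if E w then some (b w, A w) else none with hF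
  have hFB : ∀ w, tst B (F w) (V w) := by
    intro w f hf
    rw [hF] at hf
    simp only at hf
    by_cases he : E w
    · rw [if_pos he] at hf
      rw [← Option.some.inj hf]
      exact he
    · rw [if_neg he] at hf
      exact absurd hf (Option.some_ne_none f).symm
  -- the best value
  obtain ⟨w₀, -⟩ : ∃ w₀ : Ω, 0 < q w₀ := by
    by_contra h
    push Not at h
    have h1 := Finset.sum_nonpos (s := Finset.univ) (f := q) fun w _ => h w
    rw [hq.sum_one] at h1
    linarith
  have hmax : ∀ γ : S, ∃ a ∈ Finset.univ.image A, ∀ a' ∈ Finset.univ.image A,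
      ms q V b B (γ, a') γ ≤ ms q V b B (γ, a) γ := fun γ =>
    Finset.exists_max_image _ (fun a' => ms q V b B (γ, a') γ)
      ⟨A w₀, Finset.mem_image_of_mem _ (Finset.mem_univ _)⟩
  choose a _ ha2 using hmax
  set m : S → ℝ := fun γ => ms q V b B (γ, a γ) γ with hm
  have hm1 : ∀ γ, m γ ≤ 1 := fun γ => ms_le_one hq0 V b B _ γ
  have hm0 : ∀ γ, 0 ≤ m γ := fun γ => ms_nonneg hq0 V b B _ γ
  -- information
  have hF1 : CH q V (fun w => (b w, A w)) ≤ Real.log 2 + CH q V (fun w => (F w, b w)) := by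
    have h1 := CH_le_add hq0 V (fun w => decide (E w)) (fun w => (b w, A w))
    have h2 : CH q (fun w => decide (E w)) (fun w => (b w, A w)) ≤ Real.log 2 := by
      have h3 := CH_le_card hq0 hq.sum_one (fun w => decide (E w)) (fun w => (b w, A w))
        (fun _ => Finset.univ) (fun w _ => Finset.mem_univ _)
      refine h3.trans (le_of_eq ?_)
      rw [Ex_const hq.sum_one, Finset.card_univ, Fintype.card_bool]
      norm_num
    have h3 : CH q V (fun w => (decide (E w), (b w, A w))) ≤ CH q V (fun w => (F w, b w)) := by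
      refine CH_mono_cond hq0 ?_
      intro w w' _ _ h
      simp only [Prod.mk.injEq, hF] at h ⊢
      obtain ⟨h4, h5, h6⟩ := h
      have h7 : E w ↔ E w' := by
        have := decide_eq_decide.1 h4
        exact this
      refine ⟨?_, h5⟩
      by_cases he : E w
      · rw [if_pos he, if_pos (h7.1 he), h5, h6]
      · rw [if_neg he, if_neg (fun h' => he (h7.2 h'))]
    linarith
  have g1 := gibbs_set hq V b F (tst B) (fun w _ => hFB w)
  have g2 : Ex q (fun w => -Real.log (ms q V b (tst B) (F w) (b w))) ≤ δ := by linarith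
  have hpos : ∀ w, 0 < q w → E w → 0 < ms q V b B (b w, A w) (b w) := by
    intro w hw he
    refine div_pos ?_ (law_pos hq0 b hw)
    refine lt_of_lt_of_le hw ?_
    have h := le_law hq0 (fun w' => (B (b w, A w) (V w'), b w')) w
    rwa [eq_true (show B (b w, A w) (V w) from he)] at h
  have hle : ∀ w, ms q V b B (b w, A w) (b w) ≤ m (b w) := fun w =>
    ha2 (b w) (A w) (Finset.mem_image_of_mem _ (Finset.mem_univ _))
  have hlow : ∀ w, 0 < q w → (if E w then -Real.log (m (b w)) else 0) ≤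
      -Real.log (ms q V b (tst B) (F w) (b w)) := by
    intro w hw
    by_cases he : E w
    · rw [if_pos he]
      have hf : F w = some (b w, A w) := if_pos he
      rw [hf, ms_tst]
      have := Real.log_le_log (hpos w hw he) (hle w)
      linarith
    · rw [if_neg he]
      have h1 := ms_le_one hq0 V b (tst B) (F w) (b w)
      have h0 := ms_nonneg hq0 V b (tst B) (F w) (b w)
      have := Real.log_nonpos h0 h1
      linarith
  have g3 : Ex q (fun w => if E w then -Real.log (m (b w)) else 0) ≤ δ :=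
    (Ex_mono hq0 hlow).trans g2
  -- Markov
  set c : ℝ := 2 / η * δ with hc
  have hc0 : 0 < c := by positivity
  have hmpos : ∀ w, 0 < q w → E w → 0 < m (b w) := fun w hw he =>
    lt_of_lt_of_le (hpos w hw he) (hle w)
  have g4 : c * Pe q E ≤ δ + c * Pe q (fun w => Real.exp (-c) ≤ m (b w)) := by
    rw [Pe_Ex, Pe_Ex, ← Ex_smul, ← Ex_smul]
    refine le_trans ?_ (add_le_add_left g3 _)
    rw [← Ex_add]
    refine Ex_mono hq0 fun w hw => ?_
    by_cases he : E w
    · rw [if_pos he, if_pos he]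
      by_cases hg : Real.exp (-c) ≤ m (b w)
      · rw [if_pos hg]
        have := Real.log_nonpos (hm0 (b w)) (hm1 (b w))
        linarith
      · rw [if_neg hg]
        push Not at hg
        have h1 := hmpos w hw he
        have h2 := Real.log_lt_log h1 hg
        rw [Real.log_exp] at h2
        linarith
    · rw [if_neg he, if_neg he]
      split_ifs
      · linarith
      · linarith
  have g5 : η / 2 ≤ Pe q (fun w => Real.exp (-c) ≤ m (b w)) := by
    have h1 : c * (η / 2) = δ := by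
      rw [hc]
      field_simp
    have h2 : c * η ≤ c * Pe q E := mul_le_mul_of_nonneg_left hE hc0.le
    have h3 : c * (η / 2) ≤ c * Pe q (fun w => Real.exp (-c) ≤ m (b w)) := by
      have : c * η = 2 * (c * (η / 2)) := by ring
      linarith
    exact le_of_mul_le_mul_left h3 hc0
  refine ⟨a, ?_⟩
  have g6 := Pe_test hq0 V b B (fun γ => (γ, a γ))
  have g7 : Real.exp (-c) * Pe q (fun w => Real.exp (-c) ≤ m (b w)) ≤ Ex q (fun w => m (b w)) := by
    rw [Pe_Ex, ← Ex_smul]
    refine Ex_mono hq0 fun w _ => ?_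
    split_ifs with h
    · rw [mul_one]
      exact h
    · rw [mul_zero]
      exact hm0 _
  have g8 : Pe q (fun w => G (b w) (a (b w)) (V w)) = Ex q (fun w => m (b w)) := g6
  rw [g8]
  refine le_trans ?_ g7
  rw [mul_comm]
  exact mul_le_mul_of_nonneg_left g5 (Real.exp_pos _).le

end choice

section main

variable {Bd Lam Gam S T Ω : Type} [Fintype Ω] {X : Lat Bd Lam Gam} {C D : ℝ} {p : Ω → ℝ}

/-- The functional which is minimised. -/
noncomputable def phi (X : Lat Bd Lam Gam) (p : Ω → ℝ) (b : Ω → S) (L : Ω → Lam) (V : Ω → Bd)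
    (s : ℝ) (j : ℕ) (U : S × (Fin j → Bd) → Bd) : ℝ :=
  CH (tup p (fun ω => (b ω, L ω)) j) (fun v => X.cl (U (cx b V j v)) (L (v 0))) (cx b V j) +
    s * Ex (tup p (fun ω => (b ω, L ω)) j) (fun v => X.lv (U (cx b V j v)))

/-- Its infimum, with `j` copies. -/
noncomputable def mm (X : Lat Bd Lam Gam) (p : Ω → ℝ) (b : Ω → S) (L : Ω → Lam) (V : Ω → Bd)
    (A : ℕ → Bd → Prop) (s : ℝ) (j : ℕ) : ℝ :=
  ⨅ U : {U : S × (Fin j → Bd) → Bd // ∀ z, A j (U z)}, phi X p b L V s j U

variable {b : Ω → S} {L : Ω → Lam} {V : Ω → Bd} {s : ℝ} {W : Bd} {A : ℕ → Bd → Prop}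

theorem phi_ge (hA : Cla X V W A D) (hp : IsLaw p) (hs : 0 ≤ s) (hs1 : s ≤ 1) (hD : 0 ≤ D) (j : ℕ)
    (U : S × (Fin j → Bd) → Bd) (hU : ∀ z, A j (U z)) : -D ≤ phi X p b L V s j U := by
  have hq := tup_isLaw hp (fun ω => (b ω, L ω)) j
  unfold phi
  have h1 := CH_nonneg hq.nonneg (fun v => X.cl (U (cx b V j v)) (L (v 0))) (cx b V j)
  have h2 : -D ≤ Ex (tup p (fun ω => (b ω, L ω)) j) (fun v => X.lv (U (cx b V j v))) := by
    rw [← Ex_const hq.sum_one (-D)]
    exact Ex_mono hq.nonneg fun v _ => hA.lo j _ (hU _)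
  have h3 := mul_le_mul_of_nonneg_left h2 hs
  have h4 := mul_le_mul_of_nonneg_right hs1 hD
  linarith

theorem mm_le (hA : Cla X V W A D) (hp : IsLaw p) (hs : 0 ≤ s) (hs1 : s ≤ 1) (hD : 0 ≤ D) (j : ℕ)
    (U : S × (Fin j → Bd) → Bd) (hU : ∀ z, A j (U z)) :
    mm X p b L V A s j ≤ phi X p b L V s j U :=
  ciInf_le (f := fun U : {U : S × (Fin j → Bd) → Bd // ∀ z, A j (U z)} => phi X p b L V s j U)
    ⟨-D, by
      rintro _ ⟨U', rfl⟩
      exact phi_ge hA hp hs hs1 hD j U'.1 U'.2⟩ ⟨U, hU⟩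

theorem mm_ge (hA : Cla X V W A D) (hp : IsLaw p) (hs : 0 ≤ s) (hs1 : s ≤ 1) (hD : 0 ≤ D)
    (j : ℕ) : -D ≤ mm X p b L V A s j :=
  haveI : Nonempty {U : S × (Fin j → Bd) → Bd // ∀ z, A j (U z)} := ⟨⟨fun _ => W, fun _ => hA.top j⟩⟩
  le_ciInf fun U => phi_ge hA hp hs hs1 hD j U.1 U.2

/-- **One more copy**: the own plank in the place of the last copy. -/
theorem mm_succ (hA : Cla X V W A D) (hp : IsLaw p) (hs : 0 ≤ s) (hs1 : s ≤ 1) (hD : 0 ≤ D) (j : ℕ)
    (h : S × (Fin j → Bd) → Bd → Bd) (hh : ∀ z ω, A (j + 1) (h z (V ω))) :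
    mm X p b L V A s (j + 1) ≤
      CH (tup p (fun ω => (b ω, L ω)) j) (fun v => X.cl (h (cx b V j v) (V (v 0))) (L (v 0)))
        (fun v => (cx b V j v, V (v 0))) +
      s * Ex (tup p (fun ω => (b ω, L ω)) j) (fun v => X.lv (h (cx b V j v) (V (v 0)))) := by
  classical
  have hp0 := hp.nonneg
  set K : Ω → S × Lam := fun ω => (b ω, L ω) with hK
  have hq0 := tup_nonneg hp0 K (j + 1)
  have hm := rot_marg hp0 K j
  set g : S × (Fin (j + 1) → Bd) → Bd := fun z =>
    if A (j + 1) (h (z.1, fun i => z.2 i.castSucc) (z.2 (Fin.last j))) then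
      h (z.1, fun i => z.2 i.castSucc) (z.2 (Fin.last j)) else W with hg
  have h1 := mm_le (b := b) (L := L) hA hp hs hs1 hD (j + 1) g (fun z => by
    rw [hg]
    simp only
    split_ifs with h0
    · exact h0
    · exact hA.top _)
  refine h1.trans (le_of_eq ?_)
  unfold phi
  have e1 : ∀ v, 0 < tup p K (j + 1) v →
      (cx b V (j + 1) v).1 = (cx b V j (v ∘ rot j)).1 ∧ L ((v ∘ rot j) 0) = L (v 0) ∧
      (fun i : Fin j => (cx b V (j + 1) v).2 i.castSucc) = (cx b V j (v ∘ rot j)).2 ∧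
      (cx b V (j + 1) v).2 (Fin.last j) = V ((v ∘ rot j) 0) := by
    intro v hv
    have h2 := ((tup_pos_iff hp0 K _ v).1 hv).2 (Fin.last (j + 1))
    simp only [hK, Prod.mk.injEq] at h2
    have h3 : (v ∘ rot j) 0 = v (Fin.last (j + 1)) := by
      show v (rot j 0) = _
      rw [rot_zero]
    refine ⟨?_, ?_, ?_, ?_⟩
    · show b (v 0) = b ((v ∘ rot j) 0)
      rw [h3, h2.1]
    · rw [h3, h2.2]
    · funext i
      show V (v i.castSucc.succ) = V (v (rot j i.succ))
      rw [rot_succ]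
    · rw [h3]
      show V (v (Fin.last j).succ) = _
      rw [Fin.succ_last]
  have e2 : ∀ v, 0 < tup p K (j + 1) v →
      g (cx b V (j + 1) v) = h (cx b V j (v ∘ rot j)) (V ((v ∘ rot j) 0)) := by
    intro v hv
    obtain ⟨a1, -, a3, a4⟩ := e1 v hv
    have h5 : h ((cx b V (j + 1) v).1, fun i => (cx b V (j + 1) v).2 i.castSucc)
        ((cx b V (j + 1) v).2 (Fin.last j)) = h (cx b V j (v ∘ rot j)) (V ((v ∘ rot j) 0)) := by
      rw [a1, a3, a4]
    rw [hg]
    simp only
    rw [h5, if_pos (hh _ _)]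
  congr 1
  · rw [← hm.CH (fun v => X.cl (h (cx b V j v) (V (v 0))) (L (v 0)))
      (fun v => (cx b V j v, V (v 0)))]
    refine CH_congr hq0 ?_ ?_ ?_ ?_
    · intro v v' hv hv' e
      simp only [Prod.mk.injEq] at e ⊢
      rw [← e2 v hv, ← e2 v' hv', (e1 v hv).2.1, (e1 v' hv').2.1]
      exact e.1
    · intro v v' hv hv' e
      simp only [Prod.mk.injEq] at e ⊢
      rw [e2 v hv, e2 v' hv', ← (e1 v hv).2.1, ← (e1 v' hv').2.1]
      exact e.1
    · intro v v' hv hv' e
      simp only [Prod.mk.injEq]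
      obtain ⟨a1, -, a3, a4⟩ := e1 v hv
      obtain ⟨c1, -, c3, c4⟩ := e1 v' hv'
      refine ⟨Prod.ext ?_ ?_, ?_⟩
      · rw [← a1, ← c1, e]
      · rw [← a3, ← c3, e]
      · rw [← a4, ← c4, e]
    · intro v v' hv hv' e
      simp only [Prod.mk.injEq] at e
      obtain ⟨a1, -, a3, a4⟩ := e1 v hv
      obtain ⟨c1, -, c3, c4⟩ := e1 v' hv'
      refine Prod.ext ?_ ?_
      · rw [a1, c1, e.1]
      · funext i
        refine Fin.lastCases ?_ (fun i => ?_) i
        · rw [a4, c4, e.2]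
        · have h5 := congrFun (a3.trans ((congrArg Prod.snd e.1).trans c3.symm)) i
          exact h5
  · congr 1
    rw [← hm.ex (fun v => X.lv (h (cx b V j v) (V (v 0))))]
    unfold Ex
    refine Finset.sum_congr rfl fun v _ => ?_
    rcases (hq0 v).eq_or_lt with h0 | h0
    · rw [show tup p (fun ω => (b ω, L ω)) (j + 1) v = 0 from h0.symm, zero_mul, zero_mul]
    · show tup p K (j + 1) v * X.lv (g (cx b V (j + 1) v)) = _
      rw [e2 v h0]

/-- **The minimisation.** `pay`: the cell of the line in a body which is a function of the context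
and of the copies has an entropy, given the own label. `mi`: the own plank is nearly independent
of the line. `tilt`: no body which is a function of the context contains the own planks. -/
theorem min_thm (hX : X.OK C) (hp : IsLaw p) (b : Ω → S) (L : Ω → Lam) (V : Ω → Bd) (B : Ω → T)
    (hV : Det p B V) (hL : Det p B (fun ω => X.cl (V ω) (L ω))) (W : Bd) (A : ℕ → Bd → Prop)
    (hA : Cla X V W A D) (hW : X.lv W ≤ 0) (hWc : CH p (fun ω => X.cl W (L ω)) b ≤ C) {N : ℕ} (hN : 1 ≤ N)
    {ε κ τ δ io p₀ : ℝ} (hε : 0 < ε) (hε1 : ε ≤ 1) (hκ : 0 ≤ κ) (hτ : 0 < τ) (hio : 0 ≤ io)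
    (hp₀ : 0 < p₀) (hC : 0 ≤ C) (hD : 0 ≤ D)
    (pay : ∀ j, j < N → ∀ U : S × (Fin j → Bd) → Bd, (∀ z, A j (U z)) →
      Ex (tup p (fun ω => (b ω, L ω)) j) (fun v => X.lv (X.jn (V (v 0)) (U (cx b V j v))) -
        X.lv (U (cx b V j v))) - δ ≤
      CH (tup p (fun ω => (b ω, L ω)) j) (fun v => X.cl (U (cx b V j v)) (L (v 0)))
        (fun v => (B (v 0), cx b V j v)))
    (mi : CH p V b - CH p V (fun ω => (b ω, L ω)) ≤ io)
    (tilt : ∀ U : S → Bd, (∀ z, ∃ j < N, A j (U z)) → Pe p (fun ω => X.lv (U (b ω)) ≤ -κ ∧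
      X.lv (X.jn (V ω) (U (b ω))) - X.lv (U (b ω)) ≤ τ) <
        p₀ / 2 * Real.exp (-(2 / p₀ * (io + Real.log 2))))
    (he : (C + D) / N + 1 + 3 * C + δ ≤ ε * p₀ * τ) :
    -Ex p (fun ω => X.lv (V ω)) - (κ + (ε + 2 * p₀) * D + (C + D) / N + 1) ≤
      CH p (fun ω => X.cl (V ω) (L ω)) (fun ω => (V ω, b ω)) := by
  classical
  have hp0 := hp.nonneg
  set K : Ω → S × Lam := fun ω => (b ω, L ω) with hK
  set s : ℝ := 1 - ε with hs
  have hs0 : 0 ≤ s := by linarith
  have hs1 : s ≤ 1 := by linarith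
  have hNR : (0 : ℝ) < N := by exact_mod_cast hN
  set m : ℕ → ℝ := mm X p b L V A s with hm
  -- choice of the number of copies
  have hm0 : m 0 ≤ C := by
    refine (mm_le hA hp hs0 hs1 hD 0 (fun _ => W) (fun _ => hA.top 0)).trans ?_
    unfold phi
    have h1 : CH (tup p K 0) (fun v => X.cl W (L (v 0))) (cx b V 0) ≤ C := by
      have h2 := (tup_marg hp0 K 0 0).CH (fun ω => X.cl W (L ω)) b
      have h3 : CH (tup p K 0) (fun v => X.cl W (L (v 0))) (cx b V 0) ≤
          CH (tup p K 0) (fun v => X.cl W (L (v 0))) (fun v => b (v 0)) :=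
        CH_mono_cond (tup_nonneg hp0 K 0) fun v v' _ _ h => (Prod.ext_iff.1 h).1
      linarith
    have h4 : Ex (tup p K 0) (fun _ => X.lv W) = X.lv W :=
      Ex_const (tup_isLaw hp K 0).sum_one _
    have h5 : s * Ex (tup p K 0) (fun _ => X.lv W) ≤ 0 := by
      rw [h4]
      exact mul_nonpos_of_nonneg_of_nonpos hs0 hW
    exact (add_le_add h1 h5).trans (le_of_eq (add_zero C))
  have hmN : -D ≤ m N := mm_ge hA hp hs0 hs1 hD N
  obtain ⟨j, hjN, hj⟩ : ∃ j < N, m j - m (j + 1) ≤ (C + D) / N := by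
    by_contra h
    push Not at h
    have h1 : ∑ i ∈ Finset.range N, (C + D) / N < ∑ i ∈ Finset.range N, (m i - m (i + 1)) :=
      Finset.sum_lt_sum_of_nonempty ⟨0, Finset.mem_range.2 hN⟩ fun i hi =>
        h i (Finset.mem_range.1 hi)
    rw [Finset.sum_range_sub', Finset.sum_const, Finset.card_range, nsmul_eq_mul,
      mul_div_cancel₀ _ hNR.ne'] at h1
    linarith
  -- a minimiser
  have : Nonempty {U : S × (Fin j → Bd) → Bd // ∀ z, A j (U z)} :=
    ⟨⟨fun _ => W, fun _ => hA.top j⟩⟩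
  obtain ⟨⟨U, hUA⟩, hU⟩ : ∃ U : {U : S × (Fin j → Bd) → Bd // ∀ z, A j (U z)},
      phi X p b L V s j U < m j + 1 := exists_lt_of_ciInf_lt (lt_add_one (m j))
  set q := tup p K j with hq
  have hqL : IsLaw q := tup_isLaw hp K j
  have hq0 := hqL.nonneg
  set c := cx b V j with hc
  set lu : (Fin (j + 1) → Ω) → ℝ := fun v => X.lv (U (c v)) with hlu
  set lj : (Fin (j + 1) → Ω) → ℝ := fun v => X.lv (X.jn (V (v 0)) (U (c v))) with hlj
  have hpay := pay j hjN U hUA
  -- the functional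
  have hsucc := mm_succ (b := b) (L := L) (V := V) hA hp hs0 hs1 hD j
    (fun z v => X.jn v (U z)) (fun z ω => hA.jn j ω _ (hUA z))
  have hsub := hX.sub hqL (fun v => L (v 0)) (fun v => V (v 0)) (fun v => U (c v))
    (fun v => (c v, V (v 0))) (fun _ _ _ _ h => (Prod.ext_iff.1 h).2)
    (fun _ _ _ _ h => congrArg U (Prod.ext_iff.1 h).1)
  have h1 : CH q (fun v => X.cl (U (c v)) (L (v 0))) (fun v => (B (v 0), c v)) ≤
      CH q (fun v => X.cl (U (c v)) (L (v 0))) (fun v => (X.cl (V (v 0)) (L (v 0)),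
        (c v, V (v 0)))) := by
    refine CH_mono_cond hq0 ?_
    intro v v' hv hv' h
    simp only [Prod.mk.injEq] at h ⊢
    have a1 := ((tup_pos_iff hp0 K j v).1 hv).1 0
    have a2 := ((tup_pos_iff hp0 K j v').1 hv').1 0
    exact ⟨hL _ _ a1 a2 h.1, h.2, hV _ _ a1 a2 h.1⟩
  have h2 : CH q (fun v => X.cl (U (c v)) (L (v 0))) (fun v => (c v, V (v 0))) ≤
      CH q (fun v => X.cl (U (c v)) (L (v 0))) c :=
    CH_mono_cond hq0 fun _ _ _ _ h => (Prod.ext_iff.1 h).1
  have hUphi : CH q (fun v => X.cl (U (c v)) (L (v 0))) c + s * Ex q lu < m j + 1 := hU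
  have hsub' : CH q (fun v => X.cl (U (c v)) (L (v 0))) (fun v => (X.cl (V (v 0)) (L (v 0)),
      (c v, V (v 0)))) + CH q (fun v => X.cl (X.jn (V (v 0)) (U (c v))) (L (v 0)))
        (fun v => (c v, V (v 0))) ≤
      CH q (fun v => X.cl (U (c v)) (L (v 0))) (fun v => (c v, V (v 0))) + 2 * C := hsub
  have hsucc' : m (j + 1) ≤ CH q (fun v => X.cl (X.jn (V (v 0)) (U (c v))) (L (v 0)))
      (fun v => (c v, V (v 0))) + s * Ex q lj := hsucc
  have hpay' : Ex q (fun v => lj v - lu v) - δ ≤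
      CH q (fun v => X.cl (U (c v)) (L (v 0))) (fun v => (B (v 0), c v)) := hpay
  rw [Ex_sub] at hpay'
  set η : ℝ := (C + D) / N with hη
  have h3 : ε * (Ex q lj - Ex q lu) ≤ η + 1 + 2 * C + δ := by
    have h4 : Ex q lj - Ex q lu - δ ≤ m j + 1 - m (j + 1) + s * (Ex q lj - Ex q lu) + 2 * C := by
      linarith
    have h5 : ε * (Ex q lj - Ex q lu) = (Ex q lj - Ex q lu) - s * (Ex q lj - Ex q lu) := by
      rw [hs]
      ring
    linarith
  -- Markov
  have h6 : Pe q (fun v => τ < lj v - lu v) ≤ p₀ := by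
    have h7 : (τ + C) * Pe q (fun v => τ < lj v - lu v) ≤ Ex q lj - Ex q lu + C := by
      rw [Pe_Ex, ← Ex_smul, ← Ex_sub]
      have h8 : Ex q (fun v => lj v - lu v) + C = Ex q (fun v => (lj v - lu v) + C) := by
        rw [Ex_add, Ex_const hqL.sum_one]
      rw [h8]
      refine Ex_mono hq0 fun v _ => ?_
      have h9 : 0 ≤ lj v - lu v + C := by
        have := hX.up (V (v 0)) (U (c v))
        simp only [hlj, hlu]
        linarith
      split_ifs with h10
      · linarith
      · rw [mul_zero]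
        exact h9
    have h11 : ε * (Ex q lj - Ex q lu + C) ≤ ε * p₀ * τ := by
      have : ε * C ≤ 1 * C := mul_le_mul_of_nonneg_right hε1 hC
      linarith
    have h12 : Ex q lj - Ex q lu + C ≤ p₀ * τ := by
      have : ε * (Ex q lj - Ex q lu + C) ≤ ε * (p₀ * τ) := by
        rw [← mul_assoc]
        exact h11
      exact le_of_mul_le_mul_left this hε
    have h13 : (τ + C) * Pe q (fun v => τ < lj v - lu v) ≤ (τ + C) * p₀ := by
      refine (h7.trans h12).trans ?_
      have := mul_nonneg hC hp₀.le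
      linarith
    exact le_of_mul_le_mul_left h13 (by linarith)
  -- the choice of the copy
  have h14 : Pe q (fun v => lu v ≤ -κ ∧ lj v - lu v ≤ τ) ≤ p₀ := by
    by_contra hcon
    rw [not_le] at hcon
    have hmi : CH q (fun v => V (v 0)) (fun v => b (v 0)) -
        CH q (fun v => V (v 0)) (fun v => (b (v 0), fun i : Fin j => V (v i.succ))) ≤ io := by
      have a1 := mi_cx hp b L V j
      have a2 := (tup_marg hp0 K j 0).CH V b
      have a3 : CH q (fun v => V (v 0)) (fun v => (b (v 0), fun i : Fin j => V (v i.succ))) =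
        CH q (fun v => V (v 0)) c := rfl
      rw [a3]
      have a4 : CH p V K ≤ CH q (fun v => V (v 0)) c := a1
      have a5 : CH q (fun v => V (v 0)) (fun v => b (v 0)) = CH p V b := a2
      linarith
    obtain ⟨a, ha⟩ := pick hqL (fun v => V (v 0)) (fun v => b (v 0))
      (fun v (i : Fin j) => V (v i.succ))
      (fun z a v => X.lv (U (z, a)) ≤ -κ ∧ X.lv (X.jn v (U (z, a))) - X.lv (U (z, a)) ≤ τ)
      hp₀ hio (le_of_lt hcon) hmi
    have h15 := tilt (fun z => U (z, a z)) (fun z => ⟨j, hjN, hUA _⟩)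
    have h16 : Pe q (fun v => X.lv (U (b (v 0), a (b (v 0)))) ≤ -κ ∧
        X.lv (X.jn (V (v 0)) (U (b (v 0), a (b (v 0))))) - X.lv (U (b (v 0), a (b (v 0)))) ≤ τ) =
        Pe p (fun ω => X.lv (U (b ω, a (b ω))) ≤ -κ ∧
        X.lv (X.jn (V ω) (U (b ω, a (b ω)))) - X.lv (U (b ω, a (b ω))) ≤ τ) :=
      (tup_marg hp0 K j 0).law (fun ω => X.lv (U (b ω, a (b ω))) ≤ -κ ∧
        X.lv (X.jn (V ω) (U (b ω, a (b ω)))) - X.lv (U (b ω, a (b ω))) ≤ τ) True
    linarith
  have h17 : -(κ + 2 * p₀ * D) ≤ Ex q lu := by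
    have h18 : Ex q (fun v => -κ + -D * ((if τ < lj v - lu v then (1 : ℝ) else 0) +
        (if lu v ≤ -κ ∧ lj v - lu v ≤ τ then (1 : ℝ) else 0))) ≤ Ex q lu := by
      refine Ex_mono hq0 fun v _ => ?_
      have a1 : -D ≤ lu v := hA.lo j _ (hUA _)
      by_cases k1 : τ < lj v - lu v
      · rw [if_pos k1, if_neg (fun k => absurd k.2 (not_le.2 k1))]
        linarith
      · rw [if_neg k1]
        by_cases k2 : lu v ≤ -κ
        · rw [if_pos ⟨k2, not_lt.1 k1⟩]
          linarith
        · rw [if_neg (fun k => k2 k.1)]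
          rw [not_le] at k2
          linarith
    have h19 : Ex q (fun v => -κ + -D * ((if τ < lj v - lu v then (1 : ℝ) else 0) +
        (if lu v ≤ -κ ∧ lj v - lu v ≤ τ then (1 : ℝ) else 0))) =
        -κ + -D * (Pe q (fun v => τ < lj v - lu v) +
          Pe q (fun v => lu v ≤ -κ ∧ lj v - lu v ≤ τ)) := by
      rw [Ex_add, Ex_const hqL.sum_one, Ex_smul, Ex_add, Pe_Ex', Pe_Ex']
    rw [h19] at h18
    have h20 : D * (Pe q (fun v => τ < lj v - lu v) +
          Pe q (fun v => lu v ≤ -κ ∧ lj v - lu v ≤ τ)) ≤ D * (2 * p₀) :=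
      mul_le_mul_of_nonneg_left (by linarith) hD
    linarith
  -- conclusion
  have h21 := mm_succ (b := b) (L := L) (V := V) hA hp hs0 hs1 hD j (fun _ v => v)
    (fun _ ω => hA.own _ ω)
  have h22 : CH q (fun v => X.cl (V (v 0)) (L (v 0))) (fun v => (c v, V (v 0))) ≤
      CH p (fun ω => X.cl (V ω) (L ω)) (fun ω => (V ω, b ω)) := by
    rw [← (tup_marg hp0 K j 0).CH (fun ω => X.cl (V ω) (L ω)) (fun ω => (V ω, b ω))]
    refine CH_mono_cond hq0 ?_
    intro v v' _ _ h
    simp only [Prod.mk.injEq] at h ⊢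
    exact ⟨h.2, congrArg Prod.fst h.1⟩
  have h23 : Ex q (fun v => X.lv (V (v 0))) = Ex p (fun ω => X.lv (V ω)) :=
    (tup_marg hp0 K j 0).ex (fun ω => X.lv (V ω))
  have h24 : m (j + 1) ≤ CH q (fun v => X.cl (V (v 0)) (L (v 0))) (fun v => (c v, V (v 0))) +
      s * Ex q (fun v => X.lv (V (v 0))) := h21
  rw [h23] at h24
  have h25 : -D ≤ Ex p (fun ω => X.lv (V ω)) := by
    rw [← Ex_const hp.sum_one (-D)]
    exact Ex_mono hp0 fun ω _ => hA.lo 0 _ (hA.own 0 ω)
  have h26 : 0 ≤ CH q (fun v => X.cl (U (c v)) (L (v 0))) c := CH_nonneg hq0 _ _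
  have h27 : s * -(κ + 2 * p₀ * D) ≤ s * Ex q lu := mul_le_mul_of_nonneg_left h17 hs0
  have h28 : s * (κ + 2 * p₀ * D) ≤ κ + 2 * p₀ * D := by
    have : 0 ≤ κ + 2 * p₀ * D := by positivity
    have := mul_le_mul_of_nonneg_right hs1 this
    linarith
  have h29 : -Ex p (fun ω => X.lv (V ω)) - ε * D ≤ -(s * Ex p (fun ω => X.lv (V ω))) := by
    rw [hs]
    have := mul_le_mul_of_nonneg_left h25 hε.le
    linarith
  linarith

end main

end Pool.LX35
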